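import Pool.Agent.H81.TC.Stm

/-!
# The vertex colours and the initial potential (module init of project TC)
-/

set_option autoImplicit false

namespace Pool.Agent.H93.TC

open Finset Pool.Agent.H81.LE Pool.Agent.H81.TC

theorem family_row {V : Type} [DecidableEq V] {S : Finset V} {L : V → Finset ℕ} {D : ℕ}
    {F : Finset (V × ℕ)} (hF : F ∈ family S L D) : ∀ x ∈ F, x.1 ∈ S := by
  intro x hx
  unfold family at hF
  rcases mem_union.1 hF with h | h
  · obtain ⟨q, hq, rfl⟩ := mem_image.1 h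
    have h1 := (mem_product.1 (mem_filter.1 hq).1).1
    unfold Fam at hx
    have h2 := (mem_product.1 (mem_filter.1 hx).1).1
    exact mem_powerset.1 h1 h2
  · obtain ⟨c, hc, rfl⟩ := mem_image.1 h
    unfold Col at hx
    obtain ⟨v, hv, rfl⟩ := mem_image.1 hx
    exact (mem_filter.1 hv).1

theorem family_card {V : Type} [DecidableEq V] {S : Finset V} {L : V → Finset ℕ} {D : ℕ}
    {F : Finset (V × ℕ)} (hF : F ∈ family S L D) : D ≤ 200 * F.card := by
  unfold family at hF
  rcases mem_union.1 hF with h | h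
  · obtain ⟨q, hq, rfl⟩ := mem_image.1 h
    have h1 := (mem_filter.1 hq).2
    refine le_trans ?_ h1
    exact Nat.le_mul_of_pos_right _ (by omega)
  · obtain ⟨c, hc, rfl⟩ := mem_image.1 h
    have h1 := (mem_filter.1 hc).2
    unfold Col
    rw [card_image_of_injective _ (fun a b hab => (Prod.ext_iff.1 hab).1)]
    omega

theorem t_init (h1 : S_vert) (h2 : S_avg) (h3 : S_count) : S_init := by
  intro V _ _ G _ r L D N t p P B₀ A hr hA hP hPn hB0 hBt hKt hD8 hDt hL hK hbig
  obtain ⟨y, hy⟩ : ∃ y : ℝ, y = Real.exp 2000 := ⟨_, rfl⟩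
  rw [← hy] at hPn ⊢
  have hy1 : 1 ≤ y := by rw [hy]; exact Real.one_le_exp (by norm_num)
  have hy0 : 0 < y := by linarith
  obtain ⟨I, hI⟩ : ∃ I : Finset (Σ _ : V, Finset (V × ℕ)), I =
      (univ.filter (fun u => D ≤ (kids G r u).card + 3 * N)).sigma
        (fun u => family (kids G r u) (L u) D) := ⟨_, rfl⟩
  have hIm : ∀ i ∈ I, D ≤ (kids G r i.1).card + 3 * N ∧ i.2 ∈ family (kids G r i.1) (L i.1) D := by
    intro i hi
    rw [hI, mem_sigma] at hi
    exact ⟨(mem_filter.1 hi.1).2, hi.2⟩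
  obtain ⟨a, ha⟩ : ∃ a : (Σ _ : V, Finset (V × ℕ)) → ℝ, ∀ i, a i =
      Real.exp (-(2 * (i.2.card : ℝ))) * Real.exp (1 / 2) ^ i.2.card := ⟨_, fun _ => rfl⟩
  obtain ⟨w, hw⟩ : ∃ w : (Σ _ : V, Finset (V × ℕ)) → V → ℕ → ℝ, ∀ i v c, w i v c =
      ∏ x ∈ i.2.filter (fun x => x.1 = v), (if x.2 ∈ B₀ x.1 ∪ ball p c then y else 1) :=
    ⟨_, fun _ _ _ => rfl⟩
  obtain ⟨β, hβ⟩ : ∃ β : (Σ _ : V, Finset (V × ℕ)) → V → ℝ, ∀ i v, β i v =
      Real.exp (((i.2.filter (fun x => x.1 = v)).card : ℝ) / 4) *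
        (if v ∈ kids G r i.1 ∧ v ∈ P then y ^ (t + 2 * p) else 1) := ⟨_, fun _ _ => rfl⟩
  have hfac : ∀ (x : V × ℕ) (c : ℕ), 0 < (if x.2 ∈ B₀ x.1 ∪ ball p c then y else 1) := by
    intro x c
    split_ifs
    · exact hy0
    · exact one_pos
  have hA1 : ∀ c v, (A c v).Nonempty := by
    intro c v
    rw [← card_pos]
    by_cases hv : v ∈ P
    · rw [hP v hv c]
      exact one_pos
    · exact (hPn v hv c).1
  have hq1 : ∀ i v, 1 ≤ (if v ∈ kids G r i ∧ v ∈ P then y ^ (t + 2 * p) else 1) := by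
    intro i v
    split_ifs
    · exact one_le_pow₀ hy1
    · exact le_rfl
  have hβ0 : ∀ i v, 0 ≤ β i v := by
    intro i v
    rw [hβ]
    exact mul_nonneg (Real.exp_pos _).le (zero_le_one.trans (hq1 _ _))
  have hw0 : ∀ i v x, 0 ≤ w i v x := by
    intro i v x
    rw [hw]
    exact prod_nonneg fun z _ => (hfac z x).le
  -- the average
  have havg : ∀ (c : V → ℕ) (v : V), ∀ i ∈ I, ∑ x ∈ A c v, w i v x ≤ (A c v).card * β i v := by
    intro c v i hi
    obtain ⟨hi1, hi2⟩ := hIm i hi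
    by_cases hv : v ∈ P
    · obtain ⟨x, hx⟩ := card_eq_one.1 (hP v hv c)
      rw [hx, sum_singleton, card_singleton, Nat.cast_one, one_mul, hw, hβ]
      have e1 : (1 : ℝ) ≤ Real.exp (((i.2.filter (fun x => x.1 = v)).card : ℝ) / 4) :=
        Real.one_le_exp (by positivity)
      by_cases hvk : v ∈ kids G r i.1
      · rw [if_pos ⟨hvk, hv⟩]
        have e2 : ∏ z ∈ i.2.filter (fun z => z.1 = v), (if z.2 ∈ B₀ z.1 ∪ ball p x then y else 1) ≤
            y ^ (t + 2 * p) := by
          rw [← prod_filter, prod_const]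
          refine pow_le_pow_right₀ hy1 ?_
          have e3 : ((i.2.filter (fun z => z.1 = v)).filter
              (fun z => z.2 ∈ B₀ z.1 ∪ ball p x)).card ≤ (B₀ v ∪ ball p x).card := by
            refine card_le_card_of_injOn Prod.snd (fun z hz => ?_) (fun z hz z' hz' hzz => ?_)
            · have hz1 := mem_filter.1 (mem_coe.1 hz)
              have hz2 := (mem_filter.1 hz1.1).2
              rw [← hz2]
              exact mem_coe.2 hz1.2
            · have hz1 := (mem_filter.1 (mem_filter.1 (mem_coe.1 hz)).1).2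
              have hz2 := (mem_filter.1 (mem_filter.1 (mem_coe.1 hz')).1).2
              exact Prod.ext (hz1.trans hz2.symm) hzz
          refine e3.trans ((card_union_le _ _).trans ?_)
          have e4 := hBt v hv
          have e5 := card_ball p x
          omega
        calc _ ≤ y ^ (t + 2 * p) := e2
          _ = 1 * y ^ (t + 2 * p) := (one_mul _).symm
          _ ≤ _ := mul_le_mul_of_nonneg_right e1 (pow_nonneg hy0.le _)
      · have e2 : i.2.filter (fun z => z.1 = v) = ∅ := by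
          rw [filter_eq_empty_iff]
          intro z hz hzv
          exact hvk (hzv ▸ family_row hi2 z hz)
        rw [e2, prod_empty, if_neg (fun h => hvk h.1)]
        simp
    · obtain ⟨Q, hQ⟩ : ∃ Q : Finset ℕ, Q = (i.2.filter (fun x => x.1 = v)).image Prod.snd :=
        ⟨_, rfl⟩
      have hinj : Set.InjOn Prod.snd (↑(i.2.filter (fun x => x.1 = v)) : Set (V × ℕ)) := by
        intro z hz z' hz' hzz
        have hz1 := (mem_filter.1 (mem_coe.1 hz)).2
        have hz2 := (mem_filter.1 (mem_coe.1 hz')).2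
        exact Prod.ext (hz1.trans hz2.symm) hzz
      have hQc : Q.card = (i.2.filter (fun x => x.1 = v)).card := by
        rw [hQ]
        exact card_image_of_injOn hinj
      have e1 : ∀ x, w i v x = ∏ z ∈ Q, (if z ∈ ball p x then y else 1) := by
        intro x
        rw [hw, hQ, prod_image hinj]
        refine prod_congr rfl fun z hz => ?_
        have hz1 := (mem_filter.1 hz).2
        rw [hz1, hB0 v hv, empty_union]
      have e2 := h2 p y (A c v) Q hy1 (hPn v hv c).2
      rw [hβ, if_neg (fun h => hv h.2), mul_one, ← hQc]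
      simp only [e1]
      exact e2
  obtain ⟨c, hc, hsum⟩ := h1 V (Σ _ : V, Finset (V × ℕ)) r A I a w β hr hA hA1
    (fun i _ => by rw [ha]; positivity) (fun i _ v x => hw0 i v x) (fun i _ v => hβ0 i v) havg
  refine ⟨c, hc, ?_⟩
  -- the left-hand side
  have hl : ∑ u ∈ univ.filter (fun u => D ≤ (kids G r u).card + 3 * N),
      ∑ F ∈ family (kids G r u) (L u) D, Real.exp (-(2 * (F.card : ℝ))) *
        ∏ x ∈ F, ((if x.2 ∈ B₀ x.1 ∪ ball p (c x.1) then y else 1) *
          Real.exp (1 / 2)) = ∑ i ∈ I, a i * ∏ v, w i v (c v) := by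
    rw [hI, sum_sigma]
    refine sum_congr rfl fun u _ => sum_congr rfl fun F _ => ?_
    rw [ha]
    simp only [hw]
    rw [prod_mul_distrib, prod_const]
    have e1 : ∏ v, ∏ x ∈ F.filter (fun x => x.1 = v),
        (if x.2 ∈ B₀ x.1 ∪ ball p (c v) then y else 1) =
        ∏ x ∈ F, (if x.2 ∈ B₀ x.1 ∪ ball p (c x.1) then y else 1) := by
      rw [← prod_fiberwise F (fun x => x.1)]
      refine prod_congr rfl fun v _ => prod_congr rfl fun x hx => ?_
      rw [(mem_filter.1 hx).2]
    rw [e1]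
    ring
  rw [hl]
  refine lt_of_le_of_lt hsum ?_
  -- the right-hand side
  have hb : ∀ i ∈ I, a i * ∏ v, β i v ≤ Real.exp (-(i.2.card : ℝ)) := by
    intro i hi
    obtain ⟨hi1, hi2⟩ := hIm i hi
    simp only [hβ]
    rw [prod_mul_distrib, ← Real.exp_sum, ← sum_div, ← Nat.cast_sum]
    have e1 : ∑ v, (i.2.filter (fun x => x.1 = v)).card = i.2.card :=
      (card_eq_sum_card_fiberwise fun x _ => mem_coe.2 (mem_univ x.1)).symm
    have e2 : ∏ v, (if v ∈ kids G r i.1 ∧ v ∈ P then y ^ (t + 2 * p) else 1) ≤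
        Real.exp ((i.2.card : ℝ) / 4) := by
      rw [← prod_filter, prod_const, ← pow_mul, hy, ← Real.exp_nat_mul]
      refine Real.exp_le_exp.2 ?_
      have e3 : (univ.filter (fun v => v ∈ kids G r i.1 ∧ v ∈ P)).card ≤ t := by
        refine le_trans (le_of_eq ?_) (hKt i.1)
        congr 1
        ext v
        simp
      have e4 : (t + 2 * p) * (univ.filter (fun v => v ∈ kids G r i.1 ∧ v ∈ P)).card ≤
          (t + 2 * p) * t := Nat.mul_le_mul_left _ e3
      have e5 := family_card hi2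
      have e6 : 8000 * ((t + 2 * p) * (univ.filter (fun v => v ∈ kids G r i.1 ∧ v ∈ P)).card) ≤
          i.2.card := by omega
      have e7 : ((8000 * ((t + 2 * p) *
          (univ.filter (fun v => v ∈ kids G r i.1 ∧ v ∈ P)).card) : ℕ) : ℝ) ≤ (i.2.card : ℝ) :=
        Nat.cast_le.2 e6
      push_cast at e7 ⊢
      linarith
    rw [e1, ha]
    have e3 : Real.exp (1 / 2) ^ i.2.card = Real.exp ((i.2.card : ℝ) / 2) := by
      rw [← Real.exp_nat_mul]
      congr 1
      ring
    rw [e3]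
    calc Real.exp (-(2 * (i.2.card : ℝ))) * Real.exp ((i.2.card : ℝ) / 2) *
          (Real.exp ((i.2.card : ℝ) / 4) *
            ∏ v, (if v ∈ kids G r i.1 ∧ v ∈ P then y ^ (t + 2 * p) else 1))
        ≤ Real.exp (-(2 * (i.2.card : ℝ))) * Real.exp ((i.2.card : ℝ) / 2) *
          (Real.exp ((i.2.card : ℝ) / 4) * Real.exp ((i.2.card : ℝ) / 4)) := by gcongr
      _ = Real.exp (-(i.2.card : ℝ)) := by
          rw [← Real.exp_add, ← Real.exp_add, ← Real.exp_add]
          congr 1
          ring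
  calc ∑ i ∈ I, a i * ∏ v, β i v ≤ ∑ i ∈ I, Real.exp (-(i.2.card : ℝ)) := sum_le_sum hb
    _ = ∑ u ∈ univ.filter (fun u => D ≤ (kids G r u).card + 3 * N),
        ∑ F ∈ family (kids G r u) (L u) D, Real.exp (-(F.card : ℝ)) := by
        rw [hI, sum_sigma]
    _ ≤ ∑ u ∈ univ.filter (fun u => D ≤ (kids G r u).card + 3 * N),
        Real.exp (-(D : ℝ) / 400) :=
        sum_le_sum fun u _ => h3 V (kids G r u) (L u) D hD8 (hL u) (hK u)
    _ = ((univ.filter (fun u => D ≤ (kids G r u).card + 3 * N)).card : ℝ) *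
        Real.exp (-(D : ℝ) / 400) := by
        rw [sum_const, nsmul_eq_mul]
    _ < 1 := hbig

end Pool.Agent.H93.TC
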